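import Pool.Agent.H674R3.HenR

set_option autoImplicit false

open Finset

namespace Pool.Agent.H674R3.HenR.BadR775

lemma card_dvd_le' {n : ℤ} (hn : n ≠ 0) (s : Finset ℤ) (hs : ∀ b ∈ s, b ∣ n) :
    s.card ≤ n.natAbs.divisors.card * 2 := by
  have h1 : s.card ≤ (n.natAbs.divisors ×ˢ (Finset.univ : Finset Bool)).card := by
    apply Finset.card_le_card_of_injOn (fun b : ℤ => (b.natAbs, decide (0 ≤ b)))
    · intro b hb
      simp only [Finset.coe_product, Set.mem_prod, Finset.mem_coe, Nat.mem_divisors,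
        Finset.mem_univ, and_true]
      exact ⟨Int.natAbs_dvd_natAbs.2 (hs b hb), Int.natAbs_ne_zero.2 hn⟩
    · intro b _ b' _ h
      simp only [Prod.mk.injEq, decide_eq_decide] at h
      omega
  rw [Finset.card_product] at h1
  simpa using h1

lemma mem_nz {H : ℕ} {x : ℤ} : x ∈ nz H ↔ |x| ≤ (H : ℤ) ∧ x ≠ 0 := by
  unfold nz
  rw [Finset.mem_filter, Finset.mem_Icc, abs_le]

lemma mem_bx {H : ℕ} {x : ℤ} : x ∈ bx H ↔ |x| ≤ 8 * (H : ℤ) := by
  unfold bx
  rw [Finset.mem_Icc, abs_le]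

lemma card_nz (H : ℕ) : (nz H).card = 2 * H := by
  have h1 : nz H = (Finset.Icc (-(H : ℤ)) H).erase 0 := by
    ext x
    unfold nz
    rw [Finset.mem_filter, Finset.mem_erase]
    tauto
  rw [h1, Finset.card_erase_of_mem (by rw [Finset.mem_Icc]; constructor <;> omega), Int.card_Icc]
  omega

lemma card_bx (H : ℕ) (hH : 1 ≤ H) : (bx H).card ≤ 17 * H := by
  unfold bx
  rw [Int.card_Icc]
  omega

/-- multiples of `g` -/
lemma card_mult (H g : ℕ) (hg : 1 ≤ g) :
    ((nz H).filter (fun b => (g : ℤ) ∣ b)).card ≤ 2 * (H / g) := by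
  rw [← card_nz (H / g)]
  refine Finset.card_le_card_of_injOn (fun b => b / (g : ℤ)) ?_ ?_
  · intro b hb
    rw [Finset.mem_coe, Finset.mem_filter, mem_nz] at hb
    obtain ⟨⟨h1, h2⟩, k, rfl⟩ := hb
    have hg0 : (g : ℤ) ≠ 0 := by positivity
    have e0 : ((g : ℤ) * k) / (g : ℤ) = k := Int.mul_ediv_cancel_left _ hg0
    show ((g : ℤ) * k) / (g : ℤ) ∈ nz (H / g)
    rw [e0, mem_nz]
    refine ⟨?_, fun h => h2 (by rw [h, mul_zero])⟩
    rw [abs_mul, abs_of_nonneg (by positivity : (0 : ℤ) ≤ g)] at h1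
    have h3 : k.natAbs ≤ H / g := by
      rw [Nat.le_div_iff_mul_le (by omega)]
      have h4 : ((k.natAbs * g : ℕ) : ℤ) ≤ (H : ℤ) := by
        push_cast
        rw [mul_comm]
        exact h1
      exact_mod_cast h4
    have h5 : |k| = (k.natAbs : ℤ) := Int.abs_eq_natAbs k
    rw [h5]
    exact_mod_cast h3
  · intro b hb b' hb' h
    rw [Finset.mem_coe, Finset.mem_filter] at hb hb'
    simp only at h
    rw [← Int.mul_ediv_cancel' hb.2, ← Int.mul_ediv_cancel' hb'.2, h]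

/-- numbers with a large common divisor with `N` -/
lemma card_gcd (H R D : ℕ) (hD : DivB H D) (n : ℤ) (hn : n ≠ 0)
    (hnH : n.natAbs ≤ 1000 * H ^ 2) :
    R ^ 3 * ((nz H).filter (fun b => R ^ 3 < Int.gcd b n)).card ≤ 2 * H * D := by
  have hsub : (nz H).filter (fun b => R ^ 3 < Int.gcd b n) ⊆
      (n.natAbs.divisors.filter (fun g => R ^ 3 < g)).biUnion
        (fun g => (nz H).filter (fun b => (g : ℤ) ∣ b)) := by
    intro b hb
    rw [Finset.mem_filter] at hb
    rw [Finset.mem_biUnion]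
    refine ⟨Int.gcd b n, ?_, ?_⟩
    · rw [Finset.mem_filter, Nat.mem_divisors]
      exact ⟨⟨Int.natAbs_dvd_natAbs.2 (Int.gcd_dvd_right b n) |> fun h => by simpa using h,
        Int.natAbs_ne_zero.2 hn⟩, hb.2⟩
    · rw [Finset.mem_filter]
      exact ⟨hb.1, Int.gcd_dvd_left b n⟩
  calc R ^ 3 * ((nz H).filter (fun b => R ^ 3 < Int.gcd b n)).card
      ≤ R ^ 3 * ((n.natAbs.divisors.filter (fun g => R ^ 3 < g)).biUnion
        (fun g => (nz H).filter (fun b => (g : ℤ) ∣ b))).card :=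
        Nat.mul_le_mul_left _ (Finset.card_le_card hsub)
    _ ≤ R ^ 3 * ∑ g ∈ n.natAbs.divisors.filter (fun g => R ^ 3 < g),
        ((nz H).filter (fun b => (g : ℤ) ∣ b)).card :=
        Nat.mul_le_mul_left _ Finset.card_biUnion_le
    _ = ∑ g ∈ n.natAbs.divisors.filter (fun g => R ^ 3 < g),
        R ^ 3 * ((nz H).filter (fun b => (g : ℤ) ∣ b)).card := Finset.mul_sum _ _ _
    _ ≤ ∑ g ∈ n.natAbs.divisors.filter (fun g => R ^ 3 < g), 2 * H := by
        refine Finset.sum_le_sum fun g hg => ?_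
        rw [Finset.mem_filter] at hg
        have h1 := card_mult H g (by omega)
        calc R ^ 3 * ((nz H).filter (fun b => (g : ℤ) ∣ b)).card ≤ g * (2 * (H / g)) :=
              Nat.mul_le_mul hg.2.le h1
          _ = 2 * (g * (H / g)) := by ring
          _ ≤ 2 * H := Nat.mul_le_mul_left _ (Nat.mul_div_le H g)
    _ = (n.natAbs.divisors.filter (fun g => R ^ 3 < g)).card * (2 * H) := by
        rw [Finset.sum_const, smul_eq_mul]
    _ ≤ D * (2 * H) := by
        refine Nat.mul_le_mul_right _ ((Finset.card_filter_le _ _).trans ?_)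
        exact hD.2 _ (Int.natAbs_ne_zero.2 hn) hnH
    _ = 2 * H * D := by ring

/-- divisors of size at most `H` -/
noncomputable def dl (H : ℕ) (n : ℤ) : Finset ℤ := (nz H).filter (fun d => n ≠ 0 ∧ d ∣ n)

lemma card_dl (H D : ℕ) (hD : DivB H D) (n : ℤ) (hn : n.natAbs ≤ 1000 * H ^ 2) :
    (dl H n).card ≤ 2 * D := by
  by_cases h0 : n = 0
  · have : dl H n = ∅ := by
      unfold dl
      rw [Finset.filter_eq_empty_iff]
      intro x _ h
      exact h.1 h0
    rw [this]; simp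
  · have h1 := card_dvd_le' h0 (dl H n) (fun d hd => (Finset.mem_filter.1 hd).2.2)
    have h2 := hD.2 _ (Int.natAbs_ne_zero.2 h0) hn
    omega

theorem taskBadR : TaskBadR := by
  classical
  intro H R D S hR hRH hD hS
  have hR3 : 1 ≤ R ^ 3 := Nat.one_le_pow _ _ (by omega)
  have hH1 : 1 ≤ H := (Nat.one_le_pow 17 R (by omega)).trans hRH
  set m := Nat.sqrt H with hm
  have hmH : m * m ≤ H := Nat.sqrt_le H
  have hmle : m ≤ H := Nat.sqrt_le_self H
  have hR3m : R ^ 3 ≤ m := by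
    rw [hm, Nat.le_sqrt]
    calc R ^ 3 * R ^ 3 = R ^ 6 := by ring
      _ ≤ R ^ 17 := Nat.pow_le_pow_right (by omega) (by norm_num)
      _ ≤ H := hRH
  have hsq : ∀ x : ℤ, x ^ 2 ≤ (H : ℤ) → |x| ≤ (m : ℤ) := by
    intro x hx
    have h1 : x.natAbs ≤ m := by
      rw [hm, Nat.le_sqrt]
      have h2 : ((x.natAbs * x.natAbs : ℕ) : ℤ) ≤ (H : ℤ) := by
        push_cast
        rw [abs_mul_abs_self]
        nlinarith
      exact_mod_cast h2
    rw [Int.abs_eq_natAbs]
    exact_mod_cast h1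
  let FA : Finset (ℤ × ℤ × ℤ) := (nz H ×ˢ nz H).image (fun z => (z.1, z.2, -z.1))
  let FB : Finset (ℤ × ℤ × ℤ) := ((nz H ×ˢ bx H) ×ˢ nz m).biUnion (fun z =>
    (dl H ((z.1.2 + z.1.1) * z.2)).image (fun δ => (z.1.1, δ, z.1.2)))
  let Bs : ℤ × ℤ → Finset ℤ := fun w => (nz H).filter (fun b => R ^ 3 < Int.gcd b (w.1 * w.2))
  let FC : Finset (ℤ × ℤ × ℤ) := (nz m ×ˢ nz m).biUnion (fun w =>
    (Bs w ×ˢ bx H).biUnion (fun z =>
      (dl H (z.2 * (w.2 - w.1) - z.1 * w.1)).image (fun δ => (z.1, δ, z.2))))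
  let FD : Finset (ℤ × ℤ × ℤ) := (nz m ×ˢ nz m).biUnion (fun w =>
    (Bs w ×ˢ nz H).image (fun z => (z.1, z.2, z.1 * w.1 / (w.2 - w.1))))
  have hcov : S ⊆ FA ∪ (FB ∪ (FC ∪ FD)) := by
    rintro ⟨b, δ, u⟩ hp
    obtain ⟨hb0, hbH, hδH, hRδ, hu0, huH, hgcd, ν, τ, ⟨hne, hν, hτ, hdvd⟩, hbad⟩ := hS _ hp
    simp only at hb0 hbH hδH hRδ hu0 huH hgcd hne hν hτ hdvd hbad
    have hδ0 : δ ≠ 0 := by
      rintro rfl
      simp only [abs_zero, mul_zero] at hRδ
      omega
    have hνm := hsq ν (hν.trans hδH)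
    have hτm := hsq τ (hτ.trans hδH)
    have hbnz : b ∈ nz H := mem_nz.2 ⟨hbH, hb0⟩
    have hδnz : δ ∈ nz H := mem_nz.2 ⟨hδH, hδ0⟩
    have hubx : u ∈ bx H := mem_bx.2 huH
    have hν0 : ν ≠ 0 := by
      rintro rfl
      have hτ0 : τ ≠ 0 := by
        rcases hne with h | h
        · exact absurd rfl h
        · exact h
      have h1 : δ ∣ u * τ := by simpa using hdvd
      -- `|δ| ≤ gcd * |τ|`
      have h2 : δ ∣ (Int.gcd u δ : ℤ) * τ := by
        have h3 : δ ∣ δ * τ := dvd_mul_right _ _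
        have h4 : (Int.gcd u δ : ℤ) * τ = u * τ * Int.gcdA u δ + δ * τ * Int.gcdB u δ := by
          rw [Int.gcd_eq_gcd_ab]; ring
        rw [h4]
        exact dvd_add (h1.mul_right _) (h3.mul_right _)
      have hg0 : (Int.gcd u δ : ℤ) ≠ 0 := by
        have : Int.gcd u δ ≠ 0 := fun h => hδ0 (Int.gcd_eq_zero_iff.1 h).2
        exact_mod_cast this
      have h5 : |δ| ≤ |(Int.gcd u δ : ℤ) * τ| := by
        have := Int.natAbs_le_of_dvd_ne_zero h2 (mul_ne_zero hg0 hτ0)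
        rw [Int.abs_eq_natAbs, Int.abs_eq_natAbs]
        exact_mod_cast this
      rw [abs_mul, abs_of_nonneg (by positivity : (0 : ℤ) ≤ (Int.gcd u δ : ℤ))] at h5
      have h6 : (Int.gcd u δ : ℤ) ≤ R := by exact_mod_cast hgcd
      have h7 : |δ| ≤ R * |τ| := h5.trans (mul_le_mul_of_nonneg_right h6 (abs_nonneg _))
      have h8 : |δ| * |δ| ≤ R ^ 2 * |δ| := by
        calc |δ| * |δ| ≤ (R * |τ|) * (R * |τ|) :=
              mul_le_mul h7 h7 (abs_nonneg _) (by positivity)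
          _ = R ^ 2 * τ ^ 2 := by rw [← sq_abs τ]; ring
          _ ≤ R ^ 2 * |δ| := mul_le_mul_of_nonneg_left hτ (by positivity)
      have h9 : |δ| ≤ (R : ℤ) ^ 2 := le_of_mul_le_mul_right h8 (abs_pos.2 hδ0)
      have h10 : (H : ℤ) ≤ (R : ℤ) ^ 3 := by
        calc (H : ℤ) ≤ R * |δ| := hRδ
          _ ≤ R * R ^ 2 := mul_le_mul_of_nonneg_left h9 (by positivity)
          _ = (R : ℤ) ^ 3 := by ring
      have h11 : H ≤ R ^ 3 := by exact_mod_cast h10
      have h12 : R ^ 3 < R ^ 17 := Nat.pow_lt_pow_right (by omega) (by norm_num)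
      omega
    have hνnz : ν ∈ nz m := mem_nz.2 ⟨hνm, hν0⟩
    by_cases hτ0 : τ = 0
    · subst hτ0
      have h1 : δ ∣ (u + b) * ν := by
        have h2 : u * (0 - ν) - b * ν = -((u + b) * ν) := by ring
        rw [h2, dvd_neg] at hdvd
        exact hdvd
      by_cases hub : u + b = 0
      · refine Finset.mem_union_left _ (Finset.mem_image.2 ⟨(b, δ), ?_, ?_⟩)
        · exact Finset.mem_product.2 ⟨hbnz, hδnz⟩
        · have : u = -b := by linarith
          rw [this]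
      · refine Finset.mem_union_right _ (Finset.mem_union_left _ (Finset.mem_biUnion.2
          ⟨((b, u), ν), ?_, Finset.mem_image.2 ⟨δ, ?_, rfl⟩⟩))
        · exact Finset.mem_product.2 ⟨Finset.mem_product.2 ⟨hbnz, hubx⟩, hνnz⟩
        · exact Finset.mem_filter.2 ⟨hδnz, mul_ne_zero hub hν0, h1⟩
    · have hτnz : τ ∈ nz m := mem_nz.2 ⟨hτm, hτ0⟩
      have hg : R ^ 3 < Int.gcd b (ν * τ) := by
        rcases hbad with h | h | h
        · exact absurd h hν0
        · exact absurd h hτ0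
        · exact h
      have hw : (ν, τ) ∈ nz m ×ˢ nz m := Finset.mem_product.2 ⟨hνnz, hτnz⟩
      have hbB : b ∈ Bs (ν, τ) := Finset.mem_filter.2 ⟨hbnz, hg⟩
      by_cases hE : u * (τ - ν) - b * ν = 0
      · refine Finset.mem_union_right _ (Finset.mem_union_right _ (Finset.mem_union_right _
          (Finset.mem_biUnion.2 ⟨(ν, τ), hw, Finset.mem_image.2 ⟨(b, δ), ?_, ?_⟩⟩)))
        · exact Finset.mem_product.2 ⟨hbB, hδnz⟩
        · have h1 : b * ν = u * (τ - ν) := by linarith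
          have h2 : τ - ν ≠ 0 := by
            intro h
            rw [h, mul_zero] at h1
            exact mul_ne_zero hb0 hν0 h1
          simp only
          rw [h1, Int.mul_ediv_cancel _ h2]
      · refine Finset.mem_union_right _ (Finset.mem_union_right _ (Finset.mem_union_left _
          (Finset.mem_biUnion.2 ⟨(ν, τ), hw, Finset.mem_biUnion.2 ⟨(b, u), ?_,
            Finset.mem_image.2 ⟨δ, ?_, rfl⟩⟩⟩)))
        · exact Finset.mem_product.2 ⟨hbB, hubx⟩
        · exact Finset.mem_filter.2 ⟨hδnz, hE, hdvd⟩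
  -- the four cardinalities
  have cA : FA.card ≤ 4 * H ^ 2 := by
    refine Finset.card_image_le.trans ?_
    rw [Finset.card_product, card_nz]
    apply le_of_eq; ring
  have hm2 : m ^ 2 ≤ H := by rw [sq]; exact hmH
  have hHH : H ≤ H ^ 2 := Nat.le_self_pow (by norm_num) H
  have cB : FB.card ≤ 136 * H ^ 2 * m * D := by
    refine (Finset.card_biUnion_le_card_mul _ _ (2 * D) ?_).trans ?_
    · rintro ⟨⟨b, u⟩, ν⟩ hz
      rw [Finset.mem_product, Finset.mem_product, mem_nz, mem_bx, mem_nz] at hz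
      simp only at hz
      refine Finset.card_image_le.trans (card_dl H D hD _ ?_)
      obtain ⟨⟨⟨h1, -⟩, h2⟩, h3, -⟩ := hz
      have h4 : ((((u + b) * ν).natAbs : ℕ) : ℤ) ≤ ((1000 * H ^ 2 : ℕ) : ℤ) := by
        rw [← Int.abs_eq_natAbs, abs_mul]
        have h5 : |u + b| ≤ 9 * (H : ℤ) := (abs_add_le _ _).trans (by linarith)
        have h6 : |ν| ≤ (H : ℤ) := h3.trans (by exact_mod_cast hmle)
        calc |u + b| * |ν| ≤ (9 * (H : ℤ)) * H := mul_le_mul h5 h6 (abs_nonneg _) (by positivity)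
          _ ≤ ((1000 * H ^ 2 : ℕ) : ℤ) := by push_cast; nlinarith [sq_nonneg (H : ℤ)]
      exact_mod_cast h4
    · rw [Finset.card_product, Finset.card_product, card_nz, card_nz]
      calc 2 * H * (bx H).card * (2 * m) * (2 * D) ≤ 2 * H * (17 * H) * (2 * m) * (2 * D) := by
            gcongr
            exact card_bx H hH1
        _ = 136 * H ^ 2 * m * D := by ring
  have hBs : ∀ w ∈ nz m ×ˢ nz m, R ^ 3 * (Bs w).card ≤ 2 * H * D := by
    rintro ⟨ν, τ⟩ hw
    rw [Finset.mem_product, mem_nz, mem_nz] at hw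
    simp only at hw
    refine card_gcd H R D hD _ (mul_ne_zero hw.1.2 hw.2.2) ?_
    have h4 : (((ν * τ).natAbs : ℕ) : ℤ) ≤ ((1000 * H ^ 2 : ℕ) : ℤ) := by
      rw [← Int.abs_eq_natAbs, abs_mul]
      have h6 : |ν| ≤ (H : ℤ) := hw.1.1.trans (by exact_mod_cast hmle)
      have h7 : |τ| ≤ (H : ℤ) := hw.2.1.trans (by exact_mod_cast hmle)
      calc |ν| * |τ| ≤ (H : ℤ) * H := mul_le_mul h6 h7 (abs_nonneg _) (by positivity)
        _ ≤ ((1000 * H ^ 2 : ℕ) : ℤ) := by push_cast; nlinarith [sq_nonneg (H : ℤ)]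
    exact_mod_cast h4
  have hww : (nz m ×ˢ nz m).card ≤ 4 * H := by
    rw [Finset.card_product, card_nz]
    nlinarith
  have cC : R ^ 3 * FC.card ≤ 272 * H ^ 3 * D ^ 2 := by
    calc R ^ 3 * FC.card ≤ R ^ 3 * ∑ w ∈ nz m ×ˢ nz m, ((Bs w ×ˢ bx H).biUnion (fun z =>
          (dl H (z.2 * (w.2 - w.1) - z.1 * w.1)).image (fun δ => (z.1, δ, z.2)))).card :=
          Nat.mul_le_mul_left _ Finset.card_biUnion_le
      _ = ∑ w ∈ nz m ×ˢ nz m, R ^ 3 * ((Bs w ×ˢ bx H).biUnion (fun z =>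
          (dl H (z.2 * (w.2 - w.1) - z.1 * w.1)).image (fun δ => (z.1, δ, z.2)))).card :=
          Finset.mul_sum _ _ _
      _ ≤ ∑ w ∈ nz m ×ˢ nz m, 68 * H ^ 2 * D ^ 2 := by
          refine Finset.sum_le_sum fun w hw => ?_
          have hw' := hw
          rw [Finset.mem_product, mem_nz, mem_nz] at hw'
          have h1 : ((Bs w ×ˢ bx H).biUnion (fun z =>
              (dl H (z.2 * (w.2 - w.1) - z.1 * w.1)).image (fun δ => (z.1, δ, z.2)))).card ≤
              (Bs w ×ˢ bx H).card * (2 * D) := by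
            refine Finset.card_biUnion_le_card_mul _ _ _ ?_
            rintro ⟨b, u⟩ hz
            rw [Finset.mem_product, Finset.mem_filter, mem_nz, mem_bx] at hz
            simp only at hz ⊢
            refine Finset.card_image_le.trans (card_dl H D hD _ ?_)
            obtain ⟨⟨⟨h1, -⟩, -⟩, h2⟩ := hz
            have h6 : |w.1| ≤ (H : ℤ) := hw'.1.1.trans (by exact_mod_cast hmle)
            have h7 : |w.2| ≤ (H : ℤ) := hw'.2.1.trans (by exact_mod_cast hmle)
            have h4 : (((u * (w.2 - w.1) - b * w.1).natAbs : ℕ) : ℤ) ≤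
                ((1000 * H ^ 2 : ℕ) : ℤ) := by
              rw [← Int.abs_eq_natAbs]
              have h8 : |w.2 - w.1| ≤ 2 * (H : ℤ) := (abs_sub _ _).trans (by linarith)
              have h9 : |u * (w.2 - w.1)| ≤ (8 * (H : ℤ)) * (2 * H) := by
                rw [abs_mul]
                exact mul_le_mul h2 h8 (abs_nonneg _) (by positivity)
              have h10 : |b * w.1| ≤ (H : ℤ) * H := by
                rw [abs_mul]
                exact mul_le_mul h1 h6 (abs_nonneg _) (by positivity)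
              have h11 := abs_sub (u * (w.2 - w.1)) (b * w.1)
              push_cast
              nlinarith [sq_nonneg (H : ℤ)]
            exact_mod_cast h4
          calc R ^ 3 * _ ≤ R ^ 3 * ((Bs w ×ˢ bx H).card * (2 * D)) := Nat.mul_le_mul_left _ h1
            _ = (R ^ 3 * (Bs w).card) * (bx H).card * (2 * D) := by
                rw [Finset.card_product]; ring
            _ ≤ (2 * H * D) * (17 * H) * (2 * D) :=
                Nat.mul_le_mul_right _ (Nat.mul_le_mul (hBs w hw) (card_bx H hH1))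
            _ = 68 * H ^ 2 * D ^ 2 := by ring
      _ = (nz m ×ˢ nz m).card * (68 * H ^ 2 * D ^ 2) := by rw [Finset.sum_const, smul_eq_mul]
      _ ≤ (4 * H) * (68 * H ^ 2 * D ^ 2) := Nat.mul_le_mul_right _ hww
      _ = 272 * H ^ 3 * D ^ 2 := by ring
  have cD : R ^ 3 * FD.card ≤ 16 * H ^ 3 * D := by
    calc R ^ 3 * FD.card ≤ R ^ 3 * ∑ w ∈ nz m ×ˢ nz m,
          ((Bs w ×ˢ nz H).image (fun z => (z.1, z.2, z.1 * w.1 / (w.2 - w.1)))).card :=
          Nat.mul_le_mul_left _ Finset.card_biUnion_le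
      _ = ∑ w ∈ nz m ×ˢ nz m, R ^ 3 *
          ((Bs w ×ˢ nz H).image (fun z => (z.1, z.2, z.1 * w.1 / (w.2 - w.1)))).card :=
          Finset.mul_sum _ _ _
      _ ≤ ∑ w ∈ nz m ×ˢ nz m, 4 * H ^ 2 * D := by
          refine Finset.sum_le_sum fun w hw => ?_
          calc R ^ 3 * _ ≤ R ^ 3 * (Bs w ×ˢ nz H).card :=
                Nat.mul_le_mul_left _ Finset.card_image_le
            _ = (R ^ 3 * (Bs w).card) * (2 * H) := by
                rw [Finset.card_product, card_nz]; ring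
            _ ≤ (2 * H * D) * (2 * H) := Nat.mul_le_mul_right _ (hBs w hw)
            _ = 4 * H ^ 2 * D := by ring
      _ = (nz m ×ˢ nz m).card * (4 * H ^ 2 * D) := by rw [Finset.sum_const, smul_eq_mul]
      _ ≤ (4 * H) * (4 * H ^ 2 * D) := Nat.mul_le_mul_right _ hww
      _ = 16 * H ^ 3 * D := by ring
  have hD1 : 1 ≤ D := hD.1
  have hDD : D ≤ D ^ 2 := Nat.le_self_pow (by norm_num) D
  have hDD1 : 1 ≤ D ^ 2 := hD1.trans hDD
  have hRm : R ^ 3 * m ≤ H := (Nat.mul_le_mul_right m hR3m).trans hmH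
  have hRH3 : R ^ 3 ≤ H := hR3m.trans hmle
  have h1 : S.card ≤ FA.card + (FB.card + (FC.card + FD.card)) := by
    refine (Finset.card_le_card hcov).trans ((Finset.card_union_le _ _).trans ?_)
    refine Nat.add_le_add_left ((Finset.card_union_le _ _).trans ?_) _
    exact Nat.add_le_add_left (Finset.card_union_le _ _) _
  have eA : R ^ 3 * FA.card ≤ 4 * H ^ 3 * D ^ 2 := by
    calc R ^ 3 * FA.card ≤ H * (4 * H ^ 2) := Nat.mul_le_mul hRH3 cA
      _ = 4 * H ^ 3 * 1 := by ring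
      _ ≤ 4 * H ^ 3 * D ^ 2 := Nat.mul_le_mul_left _ hDD1
  have eB : R ^ 3 * FB.card ≤ 136 * H ^ 3 * D ^ 2 := by
    calc R ^ 3 * FB.card ≤ R ^ 3 * (136 * H ^ 2 * m * D) := Nat.mul_le_mul_left _ cB
      _ = (R ^ 3 * m) * (136 * H ^ 2 * D) := by ring
      _ ≤ H * (136 * H ^ 2 * D) := Nat.mul_le_mul_right _ hRm
      _ = 136 * H ^ 3 * D := by ring
      _ ≤ 136 * H ^ 3 * D ^ 2 := Nat.mul_le_mul_left _ hDD
  have eD : 16 * H ^ 3 * D ≤ 16 * H ^ 3 * D ^ 2 := Nat.mul_le_mul_left _ hDD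
  calc R ^ 3 * S.card ≤ R ^ 3 * (FA.card + (FB.card + (FC.card + FD.card))) :=
        Nat.mul_le_mul_left _ h1
    _ = R ^ 3 * FA.card + (R ^ 3 * FB.card + (R ^ 3 * FC.card + R ^ 3 * FD.card)) := by ring
    _ ≤ 4 * H ^ 3 * D ^ 2 + (136 * H ^ 3 * D ^ 2 + (272 * H ^ 3 * D ^ 2 + 16 * H ^ 3 * D ^ 2)) := by
        have := cD.trans eD
        omega
    _ = 428 * (H ^ 3 * D ^ 2) := by ring
    _ ≤ 2000 * (H ^ 3 * D ^ 2) := Nat.mul_le_mul_right _ (by norm_num)
    _ = 2000 * H ^ 3 * D ^ 2 := by ring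

end Pool.Agent.H674R3.HenR.BadR775
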